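import Pool.Agent.Helper76.FT.GoalsG

/-!
# FT-POS: positivity of the height of a torus
-/

set_option autoImplicit false

namespace Pool.Agent.Helper56.FT

open Complex Set Filter Topology Pool.Agent.Helper76.FT

/-- a real number lies in every strip -/
theorem real_mem_Str {ρ : ℝ} (hρ : 0 < ρ) (x : ℝ) : (x : ℂ) ∈ Str ρ := by
  show |(x : ℂ).im| < ρ
  simpa using hρ

/-- periodicity in real positions -/
theorem tor_periodic {S : Sys} {δ ρ : ℝ} {w : ℂ → ℝ → ℂ} {c : ℂ} (h : Tor S δ w ρ c)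
    {t : ℝ} (ht : t ∈ Icc (0:ℝ) 1) : Function.Periodic (fun x : ℝ => w (x : ℂ) t) 1 := by
  intro x
  have := h.sh.per (x : ℂ) (real_mem_Str h.hρ x) t ht
  simpa using this

theorem tor_fract {S : Sys} {δ ρ : ℝ} {w : ℂ → ℝ → ℂ} {c : ℂ} (h : Tor S δ w ρ c)
    {t : ℝ} (ht : t ∈ Icc (0:ℝ) 1) (x : ℝ) : w ((Int.fract x : ℝ) : ℂ) t = w (x : ℂ) t := by
  have h1 := (tor_periodic h ht).sub_int_mul_eq ⌊x⌋ (x := x)
  simp only [mul_one] at h1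
  exact h1

/-- the bound in one layer of a strand -/
theorem layer_bound {S : Sys} {δ ρ : ℝ} {w : ℂ → ℝ → ℂ} {c : ℂ} {C : ℝ}
    (hH : ∀ x x' : ℝ, ∀ t ∈ Icc (0:ℝ) 1, ∀ t' ∈ Icc (0:ℝ) 1,
      |(w (x : ℂ) t).im ^ 3 - (w (x' : ℂ) t').im ^ 3| ≤ C * (|x - x'| + |t - t'|))
    (h : Tor S δ w ρ c) (hC : 0 < C) {Y x r T₀ T₁ : ℝ}
    (hs : Strand S w Y x r T₀ T₁) (j : ℤ) {s : ℝ} (hs0 : 0 ≤ s) (hs1 : s < 1)
    (h0 : T₀ ≤ j + s) (h1 : j + s ≤ T₁) :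
    (w ((S.orb Y x j + s * S.vel Y x j : ℝ) : ℂ) s).im ^ 3 ≤ r ^ 3 + C * r := by
  obtain ⟨γ, hγc, hγ0, hγ1, hγ⟩ := hs
  have hsub := intermediate_value_Icc (f := fun u => (γ u).2) (zero_le_one (α := ℝ))
    (continuous_snd.comp_continuousOn hγc)
  obtain ⟨u, hu, hu2⟩ := hsub (show (j + s : ℝ) ∈ Icc (γ 0).2 (γ 1).2 by
    rw [hγ0, hγ1]; exact ⟨h0, h1⟩)
  simp only at hu2
  obtain ⟨-, -, hn1, hn2⟩ := hγ u hu
  have hfl : ⌊(γ u).2⌋ = j := by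
    rw [hu2, Int.floor_eq_iff]
    constructor <;> linarith
  have hfr : Int.fract (γ u).2 = s := by
    unfold Int.fract
    rw [hfl, hu2]; ring
  rw [hfl, hfr] at hn1
  rw [hfl] at hn2
  unfold wt at hn2
  rw [hfr] at hn2
  have hsI : s ∈ Icc (0:ℝ) 1 := ⟨hs0, hs1.le⟩
  have him : (w ((γ u).1 : ℂ) s).im ≤ r := by
    have h2 : (w ((γ u).1 : ℂ) s - ((S.vel Y x j : ℝ) : ℂ)).im = (w ((γ u).1 : ℂ) s).im := by
      simp
    have h3 := Complex.abs_im_le_norm (w ((γ u).1 : ℂ) s - ((S.vel Y x j : ℝ) : ℂ))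
    rw [h2] at h3
    exact (le_abs_self _).trans (h3.trans hn2.le)
  have hpos := (h.pos (γ u).1 s hsI).1
  have h3 : (w ((γ u).1 : ℂ) s).im ^ 3 ≤ r ^ 3 := pow_le_pow_left₀ hpos.le him 3
  have h4 := hH (S.orb Y x j + s * S.vel Y x j) (γ u).1 s hsI s hsI
  have h5 := (le_abs_self _).trans h4
  have h6 : |S.orb Y x j + s * S.vel Y x j - (γ u).1| ≤ r := by
    rw [abs_sub_comm]; exact hn1.le
  have h7 : C * (|S.orb Y x j + s * S.vel Y x j - (γ u).1| + |s - s|) ≤ C * r := by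
    apply mul_le_mul_of_nonneg_left _ hC.le
    simpa using h6
  linarith

/-- continuity in one layer -/
theorem layer_cont {S : Sys} {δ ρ : ℝ} {w : ℂ → ℝ → ℂ} {c : ℂ} (h : Tor S δ w ρ c) (p v : ℝ) :
    ContinuousOn (fun s : ℝ => (w ((p + s * v : ℝ) : ℂ) s).im) (Icc (0:ℝ) 1) := by
  apply Complex.continuous_im.comp_continuousOn
  have h1 : ContinuousOn (fun s : ℝ => (((p + s * v : ℝ) : ℂ), s)) (Icc (0:ℝ) 1) := by
    apply Continuous.continuousOn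
    fun_prop
  exact h.sh.cont.comp h1 (fun s hs => ⟨real_mem_Str h.hρ _, hs⟩)

/-- the integral over one layer -/
theorem layer_int {S : Sys} {δ ρ : ℝ} {w : ℂ → ℝ → ℂ} {c : ℂ} {C : ℝ}
    (hH : ∀ x x' : ℝ, ∀ t ∈ Icc (0:ℝ) 1, ∀ t' ∈ Icc (0:ℝ) 1,
      |(w (x : ℂ) t).im ^ 3 - (w (x' : ℂ) t').im ^ 3| ≤ C * (|x - x'| + |t - t'|))
    (h : Tor S δ w ρ c) (hC : 0 < C) {Y x r T₀ T₁ : ℝ}
    (hs_ : Strand S w Y x r T₀ T₁) (j : ℤ) (h0 : T₀ ≤ j) (h1 : j + 1 ≤ T₁) {B : ℝ} (hB : 0 ≤ B)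
    (hrB : r ^ 3 + C * r ≤ B ^ 3) :
    ∫ s in (0:ℝ)..1, (w ((S.orb Y x j + s * S.vel Y x j : ℝ) : ℂ) s).im ≤ B := by
  have hcont := layer_cont h (S.orb Y x j) (S.vel Y x j)
  have hint : IntervalIntegrable
      (fun s : ℝ => (w ((S.orb Y x j + s * S.vel Y x j : ℝ) : ℂ) s).im) MeasureTheory.volume 0 1 := by
    apply ContinuousOn.intervalIntegrable
    rwa [uIcc_of_le zero_le_one]
  have hle := intervalIntegral.integral_mono_on_of_le_Ioo (μ := MeasureTheory.volume)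
    zero_le_one hint (intervalIntegrable_const (c := B) (μ := MeasureTheory.volume)) (fun s hs => by
      have h2 := layer_bound hH h hC hs_ j hs.1.le hs.2 (by linarith [hs.1]) (by linarith [hs.2])
      have h3 : (w ((S.orb Y x j + s * S.vel Y x j : ℝ) : ℂ) s).im ^ 3 ≤ B ^ 3 := h2.trans hrB
      by_contra hcon
      push Not at hcon
      exact absurd (pow_lt_pow_left₀ hcon hB three_ne_zero) (not_lt.2 h3))
  simpa using hle

/-- the contradiction along a periodic leaf -/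
theorem sum_bound {S : Sys} {δ ρ : ℝ} {w : ℂ → ℝ → ℂ} {c : ℂ} {C : ℝ}
    (horb : ∀ (x : ℝ) (n k : ℤ), ∀ Y ∈ Icc S.a S.b, S.orb Y (S.orb Y x n) k = S.orb Y x (n + k))
    (hH : ∀ x x' : ℝ, ∀ t ∈ Icc (0:ℝ) 1, ∀ t' ∈ Icc (0:ℝ) 1,
      |(w (x : ℂ) t).im ^ 3 - (w (x' : ℂ) t').im ^ 3| ≤ C * (|x - x'| + |t - t'|))
    (h : Tor S δ w ρ c) (hC : 0 < C) {Y x r T₀ T₁ : ℝ} (hY : Y ∈ Icc S.a S.b)
    (hs : Strand S w Y x r T₀ T₁) (N : ℕ) (j : ℤ) (h0 : T₀ ≤ j) (h1 : j + (N + 1) ≤ T₁) {B : ℝ}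
    (hB : 0 ≤ B) (hrB : r ^ 3 + C * r ≤ B ^ 3) :
    ∑ n ∈ Finset.range (N + 1),
      ∫ s in (0:ℝ)..1, (w ((S.orb Y (S.orb Y x j) n + s * S.vel Y (S.orb Y x j) n : ℝ) : ℂ) s).im
      ≤ (N + 1) * B := by
  have hterm : ∀ n ∈ Finset.range (N + 1),
      ∫ s in (0:ℝ)..1, (w ((S.orb Y (S.orb Y x j) n + s * S.vel Y (S.orb Y x j) n : ℝ) : ℂ) s).im
        ≤ B := by
    intro n hn
    have hn' : (n : ℝ) ≤ N := by
      have := Finset.mem_range.1 hn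
      exact_mod_cast Nat.lt_succ_iff.1 this
    have e1 : S.orb Y (S.orb Y x j) n = S.orb Y x (j + n) := horb x j n Y hY
    have e2 : S.vel Y (S.orb Y x j) n = S.vel Y x (j + n) := by
      unfold Sys.vel
      rw [e1]
    rw [e1, e2]
    apply layer_int hH h hC hs (j + n) _ _ hB hrB
    · push_cast
      have : (0:ℝ) ≤ n := Nat.cast_nonneg n
      linarith
    · push_cast
      linarith
  calc _ ≤ ∑ n ∈ Finset.range (N + 1), B := Finset.sum_le_sum hterm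
    _ = (N + 1) * B := by simp

theorem ft_pos : GReg → GTorP → GHeight → GStrand → GApe → GGron → GPos := by
  intro hReg hTorP hHeight hStrand hApe hGron S hS
  obtain ⟨hleaf, hleaf', -, -, -, -, -, -, -, -, -, horbs, -⟩ := hReg S hS
  obtain ⟨k0, M, hk0, hM, hTP⟩ := hTorP S hS
  obtain ⟨δ₁, C₁, hδ₁, hC₁, hH⟩ := hHeight S hS
  obtain ⟨δ₂, hδ₂, hA⟩ := hApe S hS
  obtain ⟨δ₃, hδ₃, hG⟩ := hGron S hS
  have hr := hS.hr
  refine ⟨min (min δ₁ δ₂) (min δ₃ (S.r / 2)), by positivity, ?_⟩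
  intro η δ hη hδ
  have hd1 : δ ≤ δ₁ := hδ.trans ((min_le_left _ _).trans (min_le_left _ _))
  have hd2 : δ ≤ δ₂ := hδ.trans ((min_le_left _ _).trans (min_le_right _ _))
  have hd3 : δ ≤ δ₃ := hδ.trans ((min_le_right _ _).trans (min_le_left _ _))
  have hd4 : δ < S.r := by
    have : δ ≤ S.r / 2 := hδ.trans ((min_le_right _ _).trans (min_le_right _ _))
    linarith
  by_contra hcon
  push Not at hcon
  have hex : ∀ k : ℕ, ∃ (ρ : ℝ) (w : ℂ → ℝ → ℂ) (c : ℂ) (q t : ℝ), Tor S δ w ρ c ∧ η ≤ c.im ∧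
      q ∈ Icc (0:ℝ) 1 ∧ t ∈ Icc (0:ℝ) 1 ∧ (w (q : ℂ) t).im < 1 / ((k : ℝ) + 1) := by
    intro k
    obtain ⟨ρ, w, c, hT, hc, x, t, ht, hlt⟩ := hcon (1 / ((k : ℝ) + 1)) (by positivity)
    refine ⟨ρ, w, c, Int.fract x, t, hT, hc, ⟨Int.fract_nonneg x, (Int.fract_lt_one x).le⟩, ht, ?_⟩
    rw [tor_fract hT ht]
    exact hlt
  choose ρ w c q t hT hc hq ht hlt using hex
  -- compactness
  have hcomp : IsCompact ((Icc (0:ℝ) 1 ×ˢ Icc (0:ℝ) 1) ×ˢ Metric.closedBall (0:ℂ) M) :=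
    (isCompact_Icc.prod isCompact_Icc).prod (isCompact_closedBall _ _)
  have hbd : ∀ k, ‖w k (q k : ℂ) (t k)‖ ≤ M := fun k =>
    ((hTP δ (ρ k) (w k) (c k) (hT k)).2.2.2.2.2.2 (q k) (t k) (ht k)).2.2.2.2.2
  obtain ⟨⟨⟨q₀, t₀⟩, v⟩, hmem, φ, hφ, hlim⟩ := hcomp.tendsto_subseq
    (x := fun k => ((q k, t k), w k (q k : ℂ) (t k)))
    (fun k => ⟨⟨hq k, ht k⟩, by simpa using hbd k⟩)
  have hq₀ : q₀ ∈ Icc (0:ℝ) 1 := hmem.1.1
  have ht₀ : t₀ ∈ Icc (0:ℝ) 1 := hmem.1.2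
  have lq : Tendsto (fun k => q (φ k)) atTop (𝓝 q₀) :=
    (continuous_fst.tendsto _).comp ((continuous_fst.tendsto _).comp hlim)
  have lt : Tendsto (fun k => t (φ k)) atTop (𝓝 t₀) :=
    (continuous_snd.tendsto _).comp ((continuous_fst.tendsto _).comp hlim)
  have lw : Tendsto (fun k => w (φ k) (q (φ k) : ℂ) (t (φ k))) atTop (𝓝 v) :=
    (continuous_snd.tendsto _).comp hlim
  -- the limit velocity is real
  have him : v.im = 0 := by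
    have l1 : Tendsto (fun k => (w (φ k) (q (φ k) : ℂ) (t (φ k))).im) atTop (𝓝 v.im) :=
      (Complex.continuous_im.tendsto _).comp lw
    have l2 : Tendsto (fun k => 1 / (((φ k : ℕ) : ℝ) + 1)) atTop (𝓝 0) :=
      tendsto_one_div_add_atTop_nhds_zero_nat.comp hφ.tendsto_atTop
    apply le_antisymm
    · exact le_of_tendsto_of_tendsto' l1 l2 (fun k => (hlt (φ k)).le)
    · exact ge_of_tendsto' l1 (fun k => ((hT (φ k)).pos (q (φ k)) (t (φ k)) (ht (φ k))).1.le)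
  have lre : Tendsto (fun k => (w (φ k) (q (φ k) : ℂ) (t (φ k))).re) atTop (𝓝 v.re) :=
    (Complex.continuous_re.tendsto _).comp lw
  have hab : S.a ≤ S.b := (hS.ha.trans hS.hb).le
  have haI : S.a ∈ Icc S.a S.b := ⟨le_rfl, hab⟩
  have hbI : S.b ∈ Icc S.a S.b := ⟨hab, le_rfl⟩
  have hVlim : ∀ Y ∈ Icc S.a S.b,
      Tendsto (fun k => S.V Y (q (φ k)) (t (φ k))) atTop (𝓝 (S.V Y q₀ t₀)) := by
    intro Y hY
    have h1 := hS.Vcont (Y, q₀, t₀) ⟨hY, mem_univ _, ht₀⟩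
    have h2 : Tendsto (fun k => (Y, q (φ k), t (φ k))) atTop
        (𝓝[Icc S.a S.b ×ˢ (univ ×ˢ Icc (0:ℝ) 1)] (Y, q₀, t₀)) := by
      apply tendsto_nhdsWithin_iff.2
      refine ⟨?_, Eventually.of_forall fun k => ⟨hY, mem_univ _, ht _⟩⟩
      exact tendsto_const_nhds.prodMk_nhds (lq.prodMk_nhds lt)
    exact h1.tendsto.comp h2
  have hreg : (q₀, v.re) ∈ S.Reg t₀ :=
    ⟨le_of_tendsto_of_tendsto' (hVlim _ haI) lre (fun k => ((hT (φ k)).reg _ _ (ht _)).1),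
      le_of_tendsto_of_tendsto' lre (hVlim _ hbI) (fun k => ((hT (φ k)).reg _ _ (ht _)).2)⟩
  obtain ⟨Y, hY, hYv⟩ := hleaf t₀ ht₀ _ hreg
  simp only at hYv
  have h01 : (0:ℝ) ∈ Icc (0:ℝ) 1 := ⟨le_rfl, zero_le_one⟩
  obtain ⟨x, hx⟩ : ∃ x, x = q₀ - t₀ * v.re := ⟨_, rfl⟩
  have hVx : S.V Y x 0 = v.re := by
    have h2 := hS.Vline Y hY q₀ 0 h01 t₀ ht₀
    rw [← hYv] at h2
    have h3 : q₀ + (0 - t₀) * v.re = x := by rw [hx]; ring
    rwa [h3] at h2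
  have hv : v = ((S.V Y x 0 : ℝ) : ℂ) := by
    apply Complex.ext
    · simp [hVx]
    · simp [him]
  have lx : Tendsto (fun k => q (φ k) - t (φ k) * S.V Y x 0) atTop (𝓝 x) := by
    have h2 : Tendsto (fun k => q (φ k) - t (φ k) * S.V Y x 0) atTop (𝓝 (q₀ - t₀ * S.V Y x 0)) :=
      lq.sub (lt.mul_const _)
    have h3 : q₀ - t₀ * S.V Y x 0 = x := by rw [hVx]; exact hx.symm
    rwa [h3] at h2
  rw [hv] at lw
  rcases hS.per Y hY with ⟨⟨N, m, hNm⟩, han⟩ | hape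
  · -- periodic leaf
    obtain ⟨C, hC, hGr⟩ := hG Y hY N m hNm han
    obtain ⟨B, hBdef⟩ : ∃ B, B = η / (2 * C * (N + 1)) := ⟨_, rfl⟩
    have hB : 0 < B := by rw [hBdef]; positivity
    obtain ⟨r, hrdef⟩ : ∃ r, r = min 1 (B ^ 3 / (1 + C₁)) := ⟨_, rfl⟩
    have hr0 : 0 < r := by rw [hrdef]; positivity
    have hr1 : r ≤ 1 := by rw [hrdef]; exact min_le_left _ _
    have hrB : r ^ 3 + C₁ * r ≤ B ^ 3 := by
      have h1 : r ≤ B ^ 3 / (1 + C₁) := by rw [hrdef]; exact min_le_right _ _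
      have h2 : r ^ 3 ≤ r := by
        calc r ^ 3 ≤ r ^ 1 := pow_le_pow_of_le_one hr0.le hr1 (by norm_num)
          _ = r := pow_one r
      have h3 : r * (1 + C₁) ≤ B ^ 3 := by
        rwa [le_div_iff₀ (by positivity)] at h1
      nlinarith
    obtain ⟨ε, hε, hst⟩ := hStrand S hS Y hY x (N + 3) r (by omega) hr0
    have e1 : ∀ᶠ k in atTop, |q (φ k) - t (φ k) * S.V Y x 0 - x| < ε := by
      filter_upwards [(Metric.tendsto_nhds.1 lx) ε hε] with k hk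
      rwa [Real.dist_eq] at hk
    have e2 : ∀ᶠ k in atTop, ‖w (φ k) (q (φ k) : ℂ) (t (φ k)) - ((S.V Y x 0 : ℝ) : ℂ)‖ < ε := by
      filter_upwards [(Metric.tendsto_nhds.1 lw) ε hε] with k hk
      rwa [dist_eq_norm] at hk
    obtain ⟨k, hk1, hk2⟩ := (e1.and e2).exists
    have hst' := hst δ (ρ (φ k)) (w (φ k)) (c (φ k)) hd4 (hT _) (q (φ k)) (t (φ k)) (ht _)
      (by
        have : q (φ k) - (x + t (φ k) * S.V Y x 0) = q (φ k) - t (φ k) * S.V Y x 0 - x := by ring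
        rw [this]; exact hk1) hk2
    have hHk := (hH δ (ρ (φ k)) (w (φ k)) (c (φ k)) hd1 (hT _)).1
    have horb : ∀ (x : ℝ) (n k : ℤ), ∀ Y ∈ Icc S.a S.b,
        S.orb Y (S.orb Y x n) k = S.orb Y x (n + k) :=
      fun x n k Y hY => (horbs Y hY x n).2.2.2.2.1 k
    have hkey : ∃ j : ℤ, ∑ n ∈ Finset.range (N + 1), ∫ s in (0:ℝ)..1,
        (w (φ k) ((S.orb Y (S.orb Y x j) n + s * S.vel Y (S.orb Y x j) n : ℝ) : ℂ) s).im
          ≤ (N + 1) * B := by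
      rcases hst' with hf | hb
      · refine ⟨1, sum_bound horb hHk (hT _) hC₁ hY hf N 1 ?_ ?_ hB.le hrB⟩
        · simp
        · push_cast; linarith
      · refine ⟨-(N + 2), sum_bound horb hHk (hT _) hC₁ hY hb N (-(N + 2)) ?_ ?_ hB.le hrB⟩
        · push_cast; linarith
        · push_cast; linarith
    obtain ⟨j, hj⟩ := hkey
    have h1 := hGr δ (ρ (φ k)) (w (φ k)) (c (φ k)) hd3 (hT _) (S.orb Y x j)
    have h2 := hc (φ k)
    have h3 : C * ((N + 1) * B) = η / 2 := by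
      rw [hBdef]
      field_simp
    have h4 := mul_le_mul_of_nonneg_left hj hC.le
    rw [h3] at h4
    linarith
  · -- aperiodic leaf
    exact hA Y hY hape η x hη δ (fun k => ρ (φ k)) (fun k => w (φ k)) (fun k => c (φ k)) hd2
      (fun k => hT _) (fun k => hc _) (fun k => q (φ k)) (fun k => t (φ k)) (fun k => ht _) lx lw

end Pool.Agent.Helper56.FT
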